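import Pool.Agent.Run7.h404.FL.Iface

/-! Piece DES of project FL (helper404): if `ω` is exact on all fibres then `a` is exact. -/

set_option autoImplicit false

namespace Run7.h888.FL

open Set Topology Filter Metric
open Run7.h404.FL

/-- near `q` the cochain `a q x y` is a primitive of `a` -/
lemma dd_cone {Q : Type} [MetricSpace Q] (a : Q → Q → Q → ℝ) (q : Q) (h : C2 a q) :
    ∃ U ∈ 𝓝 q, ∀ x ∈ U, ∀ y ∈ U, ∀ z ∈ U, a x y z = dd (a q) x y z := by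
  obtain ⟨U, hU, h⟩ := h
  refine ⟨U, hU, fun x hx y hy z hz => ?_⟩
  have := h q (mem_of_mem_nhds hU) x hx y hy z hz
  unfold dd
  linarith

lemma a_qqq {Q : Type} [MetricSpace Q] (a : Q → Q → Q → ℝ) (q : Q) (h : A2 a q) :
    ∃ U ∈ 𝓝 q, ∀ x ∈ U, a q x x = 0 := by
  obtain ⟨U, hU, h⟩ := h
  refine ⟨U, hU, fun x hx => ?_⟩
  have := (h q (mem_of_mem_nhds hU) x hx x hx).2
  linarith

/-- the primitive on the fibres near `q` -/
lemma step_LG (hLG : S_LG) {Q : Type} [MetricSpace Q] [CompactSpace Q] (Φ : ℝ → E5 → E5) (p : E5 → Q)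
    (hF : Fl Φ p) (a : Q → Q → Q → ℝ) (ω : E5 → E5 → ℝ) (hD : Da p a ω) (q : Q) (hE : FE p ω q) :
    ∃ B ∈ 𝓝 q, ∃ g : E5 → ℝ, ∀ y, p y ∈ B → ∃ U ∈ 𝓝 y, ∀ z ∈ U, ∀ w ∈ U,
      ω z w = a q (p z) (p w) + g w - g z := by
  obtain ⟨U₁, hU₁, hc⟩ := dd_cone a q (hD.c2 q)
  have h1 : ∀ y, p y = q → C1 (fun z w => ω z w - a q (p z) (p w)) y := by
    intro y hy
    obtain ⟨U₂, hU₂, hd⟩ := hD.d y
    have hp : p ⁻¹' U₁ ∈ 𝓝 y := hF.pcont.continuousAt.preimage_mem_nhds (by rw [hy]; exact hU₁)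
    refine ⟨U₂ ∩ p ⁻¹' U₁, inter_mem hU₂ hp, ?_⟩
    intro x hx z hz w hw
    have e1 := hd x hx.1 z hz.1 w hw.1
    have e2 := hc (p x) hx.2 (p z) hz.2 (p w) hw.2
    unfold dd at e1 e2 ⊢
    linarith
  have h2 : Cp p q ∨ ∃ K : Set E5, IsCompact K ∧ ∃ B ∈ 𝓝 q, ∀ y, y ∉ K → p y ∈ B →
      Z1 (fun z w => ω z w - a q (p z) (p w)) y := by
    by_cases hq : Cp p q
    · exact Or.inl hq
    · right
      obtain ⟨K, hK, hs⟩ := hD.sup
      obtain ⟨U, hU, hz⟩ := hD.van q hq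
      refine ⟨K, hK, interior U, interior_mem_nhds.2 hU, ?_⟩
      intro y hy hpy
      obtain ⟨U', hU', hz'⟩ := hs y hy
      have hp : p ⁻¹' (interior U) ∈ 𝓝 y := (isOpen_interior.preimage hF.pcont).mem_nhds hpy
      refine ⟨U' ∩ p ⁻¹' (interior U), inter_mem hU' hp, ?_⟩
      intro z hz1 w hw1
      simp only
      rw [hz' z hz1.1 w hw1.1, hz q (mem_of_mem_nhds hU) (p z) (interior_subset hz1.2) (p w) (interior_subset hw1.2)]
      ring
  have h0 : a q q q = 0 := by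
    obtain ⟨U, hU, h⟩ := a_qqq a q (hD.alt q)
    exact h q (mem_of_mem_nhds hU)
  have h3 : FE p (fun z w => ω z w - a q (p z) (p w)) q := by
    obtain ⟨g, hK, hg⟩ := hE
    refine ⟨g, hK, ?_⟩
    intro y hy
    obtain ⟨U, hU, h⟩ := hg y hy
    refine ⟨U, hU, ?_⟩
    intro z hz w hw hpz hpw
    simp only
    rw [h z hz w hw hpz hpw, hpz, hpw, h0, sub_zero]
  obtain ⟨B, hB, g, -, hg⟩ := hLG Q Φ p hF q _ h1 h2 h3
  refine ⟨B, hB, g, ?_⟩
  intro y hy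
  obtain ⟨U, hU, h⟩ := hg y hy
  refine ⟨U, hU, ?_⟩
  intro z hz w hw
  have := h z hz w hw
  simp only at this
  linarith

/-- a function which is locally constant along a fibre is constant on it -/
lemma const_on_fibre {Q : Type} [MetricSpace Q] (Φ : ℝ → E5 → E5) (p : E5 → Q)
    (hF : Fl Φ p) (q : Q) (g : E5 → ℝ)
    (h : ∀ y, p y = q → ∃ U ∈ 𝓝 y, ∀ z ∈ U, ∀ w ∈ U, p z = q → p w = q → g w = g z) :
    ∀ y z, p y = q → p z = q → g y = g z := by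
  intro y z hy hz
  obtain ⟨t, ht⟩ := (hF.fib y z).1 (hy.trans hz.symm)
  have hfib : ∀ s, p (Φ s y) = q := by
    intro s
    rw [← hy]
    exact ((hF.fib y (Φ s y)).2 ⟨s, rfl⟩).symm
  have hcont : Continuous fun s : ℝ => Φ s y := hF.cont.comp (continuous_id.prodMk continuous_const)
  have hloc : IsLocallyConstant fun s : ℝ => g (Φ s y) := by
    rw [IsLocallyConstant.iff_exists_open]
    intro s
    obtain ⟨U, hU, hg⟩ := h (Φ s y) (hfib s)
    have h1 : (fun s : ℝ => Φ s y) ⁻¹' (interior U) ∈ 𝓝 s :=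
      hcont.continuousAt.preimage_mem_nhds (interior_mem_nhds.2 hU)
    refine ⟨(fun s : ℝ => Φ s y) ⁻¹' (interior U), isOpen_interior.preimage hcont, mem_of_mem_nhds h1, ?_⟩
    intro s' hs'
    exact hg (Φ s y) (mem_of_mem_nhds hU) (Φ s' y) (interior_subset hs') (hfib s) (hfib s')
  have h2 := hloc.apply_eq_of_preconnectedSpace 0 t
  rw [hF.zero, ht] at h2
  exact h2

/-- **DES**. -/
theorem t_DES (hLG : S_LG) (hGL : S_GL) : S_DES := by
  intro Q _ _ Φ p hF a ω hD hE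
  choose B₀ hB₀ g hg using fun q => step_LG hLG Φ p hF a ω hD q (hE q)
  choose A hA ha using fun q => a_qqq a q (hD.alt q)
  obtain ⟨B, hBdef⟩ : ∃ B : Q → Set Q, B = fun q => interior (B₀ q ∩ A q) := ⟨_, rfl⟩
  have hB : ∀ q, B q ∈ 𝓝 q := fun q => by
    rw [hBdef]; exact interior_mem_nhds.2 (inter_mem (hB₀ q) (hA q))
  have hBo : ∀ q, IsOpen (B q) := fun q => by rw [hBdef]; exact isOpen_interior
  have hB1 : ∀ q, B q ⊆ B₀ q := fun q => by rw [hBdef]; exact interior_subset.trans inter_subset_left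
  have hB2 : ∀ q, B q ⊆ A q := fun q => by rw [hBdef]; exact interior_subset.trans inter_subset_right
  obtain ⟨f, hf⟩ : ∃ f : E5 → ℝ, f = fun x => g (p x) x := ⟨_, rfl⟩
  choose s hs using hF.psurj
  obtain ⟨h, hh⟩ : ∃ h : Q → Q → ℝ, h = fun q u => g q (s u) - f (s u) := ⟨_, rfl⟩
  -- `g q - f` is constant on the fibres over `B q`
  have hconst : ∀ q, ∀ y, p y ∈ B q → g q y - f y = h q (p y) := by
    intro q y hy
    have hc := const_on_fibre Φ p hF (p y) (fun x => g q x - g (p y) x) (by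
      intro x hx
      obtain ⟨U, hU, h1⟩ := hg q x (hB1 q (by rw [hx]; exact hy))
      obtain ⟨V, hV, h2⟩ := hg (p y) x (hB1 (p y) (by rw [hx]; exact mem_of_mem_nhds (hB (p y))))
      refine ⟨U ∩ V, inter_mem hU hV, ?_⟩
      intro z hz w hw hpz hpw
      have e1 := h1 z hz.1 w hw.1
      have e2 := h2 z hz.2 w hw.2
      rw [hpz, hpw, ha q (p y) (hB2 q hy)] at e1
      rw [hpz, hpw, ha (p y) (p y) (mem_of_mem_nhds (hA (p y)))] at e2
      linarith) y (s (p y)) rfl (hs (p y))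
    rw [hh, hf]
    simp only
    rw [hs (p y)]
    exact hc
  obtain ⟨Z, hZ⟩ : ∃ Z : Q → Q → Q → ℝ, Z = fun q u v => a q u v + h q v - h q u := ⟨_, rfl⟩
  have hω : ∀ q, ∀ y, p y ∈ B q → ∃ U ∈ 𝓝 y, ∀ z ∈ U, ∀ w ∈ U, ω z w - (f w - f z) = Z q (p z) (p w) := by
    intro q y hy
    obtain ⟨U, hU, h1⟩ := hg q y (hB1 q hy)
    have hp : p ⁻¹' B q ∈ 𝓝 y := ((hBo q).preimage hF.pcont).mem_nhds hy
    refine ⟨U ∩ p ⁻¹' B q, inter_mem hU hp, ?_⟩
    intro z hz w hw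
    have e1 := h1 z hz.1 w hw.1
    have e2 := hconst q z hz.2
    have e3 := hconst q w hw.2
    rw [hZ]
    simp only
    linarith
  obtain ⟨ζ, hζ⟩ := hGL Q Z (by
    intro q
    refine ⟨B q, hB q, ?_⟩
    intro q' hq'
    obtain ⟨U, hU, h1⟩ := hω q (s q') (by rw [hs]; exact hq')
    obtain ⟨V, hV, h2⟩ := hω q' (s q') (by rw [hs]; exact mem_of_mem_nhds (hB q'))
    have h3 : p '' (U ∩ V) ∈ 𝓝 q' := by
      have := hF.popen.image_mem_nhds (inter_mem hU hV)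
      rw [hs] at this
      exact this
    refine ⟨p '' (U ∩ V), h3, ?_⟩
    rintro x ⟨x', hx', rfl⟩ y ⟨y', hy', rfl⟩
    rw [← h1 x' hx'.1 y' hy'.1, ← h2 x' hx'.2 y' hy'.2])
  refine ⟨ζ, ?_⟩
  intro q
  obtain ⟨U, hU, h1⟩ := hζ q
  obtain ⟨V, hV, h2⟩ := dd_cone a q (hD.c2 q)
  refine ⟨U ∩ V, inter_mem hU hV, ?_⟩
  intro x hx y hy z hz
  have e1 := h2 x hx.2 y hy.2 z hz.2
  rw [e1]
  unfold dd
  rw [h1 y hy.1 z hz.1, h1 x hx.1 z hz.1, h1 x hx.1 y hy.1, hZ]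
  simp only
  ring

end Run7.h888.FL
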