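import Pool.Agent.Run7.h404.FL.Iface

/-! Piece LG of project FL (helper404): extension of a primitive from a fibre to the neighbouring fibres. -/

set_option autoImplicit false

namespace Run7.h888.FL

open Set Topology Filter Metric
open Run7.h404.FL

/-- a local property of sets holds on all balls of one radius around the points of a compact set -/
lemma leb {X : Type} [PseudoMetricSpace X] (S : Set X) (hS : IsCompact S) (P : Set X → Prop)
    (mono : ∀ A B : Set X, A ⊆ B → P B → P A) (loc : ∀ e ∈ S, ∃ U ∈ 𝓝 e, P U) :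
    ∃ δ : ℝ, 0 < δ ∧ ∀ e ∈ S, P (ball e δ) := by
  obtain ⟨δ, hδ, h⟩ := lebesgue_number_lemma_of_metric (ι := {U : Set X // IsOpen U ∧ P U})
    (c := fun U => U.1) hS (fun i => i.2.1) (by
      intro e he
      obtain ⟨U, hU, hP⟩ := loc e he
      rw [mem_iUnion]
      exact ⟨⟨interior U, isOpen_interior, mono _ _ interior_subset hP⟩, mem_interior_iff_mem_nhds.2 hU⟩)
  exact ⟨δ, hδ, fun e he => by
    obtain ⟨i, hi⟩ := h e he
    exact mono _ _ hi i.2.2⟩

/-- **LG**. -/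
theorem t_LG (hN : S_NEAR) : S_LG := by
  intro Q _ _ Φ p hF q c hC1 hK hFE
  obtain ⟨N1, N2, -, -⟩ := hN Q Φ p hF
  obtain ⟨g₀, ⟨K₀, hK₀, hg₀⟩, hloc⟩ := hFE
  -- the radius
  obtain ⟨R, hR1, B₁, hB₁, hR2⟩ : ∃ R : ℝ, (∀ y, p y = q → R < ‖y‖ → g₀ y = 0) ∧
      ∃ B₁ ∈ 𝓝 q, ∀ y, R ≤ ‖y‖ → p y ∈ B₁ → Z1 c y := by
    obtain ⟨R₀, hR₀⟩ := hK₀.isBounded.subset_closedBall 0
    have h1 : ∀ y, p y = q → R₀ < ‖y‖ → g₀ y = 0 := by
      intro y hy hn
      apply hg₀ y hy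
      intro hyK
      have := hR₀ hyK
      rw [mem_closedBall, dist_zero_right] at this
      linarith
    rcases hK with hcp | ⟨K, hKc, B, hB, hZ⟩
    · obtain ⟨B, hB, R', hR'⟩ := N2 q hcp
      refine ⟨max R₀ R', fun y hy hn => h1 y hy (lt_of_le_of_lt (le_max_left _ _) hn), B, hB, ?_⟩
      intro y hn hy
      exact absurd (hR' y hy) (not_lt.2 ((le_max_right _ _).trans hn))
    · obtain ⟨R', hR'⟩ := hKc.isBounded.subset_closedBall 0
      refine ⟨max R₀ R' + 1, fun y hy hn => h1 y hy ?_, B, hB, ?_⟩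
      · have := le_max_left R₀ R'
        linarith
      · intro y hn hy
        apply hZ y _ hy
        intro hyK
        have h2 := hR' hyK
        rw [mem_closedBall, dist_zero_right] at h2
        have := le_max_right R₀ R'
        linarith
  -- the compact set
  obtain ⟨K₂, hK₂⟩ : ∃ K₂ : Set E5, K₂ = closedBall 0 (R + 2) := ⟨_, rfl⟩
  have hK₂c : IsCompact K₂ := by rw [hK₂]; exact isCompact_closedBall _ _
  obtain ⟨C₂, hC₂⟩ : ∃ C₂ : Set E5, C₂ = p ⁻¹' {q} ∩ K₂ := ⟨_, rfl⟩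
  have hC₂c : IsCompact C₂ := by
    rw [hC₂]
    exact hK₂c.inter_left (isClosed_singleton.preimage hF.pcont)
  have hCq : ∀ e ∈ C₂, p e = q := fun e he => by rw [hC₂] at he; exact he.1
  obtain ⟨C₃, hC₃⟩ : ∃ C₃ : Set E5, C₃ = {x : E5 | R ≤ ‖x‖} ∩ C₂ := ⟨_, rfl⟩
  have hC₃c : IsCompact C₃ := by
    rw [hC₃]
    exact hC₂c.inter_left (isClosed_le continuous_const continuous_norm)
  -- Lebesgue numbers
  obtain ⟨δ₁, hδ₁, L1⟩ := leb C₂ hC₂c (fun U => ∀ y ∈ U, ∀ z ∈ U, ∀ w ∈ U, dd c y z w = 0)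
    (fun A B hAB h y hy z hz w hw => h y (hAB hy) z (hAB hz) w (hAB hw))
    (fun e he => hC1 e (hCq e he))
  obtain ⟨δ₂, hδ₂, L2⟩ := leb C₂ hC₂c (fun U => ∀ z ∈ U, ∀ w ∈ U, p z = q → p w = q → c z w = g₀ w - g₀ z)
    (fun A B hAB h y hy z hz => h y (hAB hy) z (hAB hz))
    (fun e he => hloc e (hCq e he))
  obtain ⟨δ₃, hδ₃, L3⟩ := leb C₃ hC₃c (fun U => ∀ y ∈ U, ∀ z ∈ U, c y z = 0)
    (fun A B hAB h y hy z hz => h y (hAB hy) z (hAB hz))
    (fun e he => by
      rw [hC₃] at he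
      exact hR2 e he.1 (by rw [hCq e he.2]; exact mem_of_mem_nhds hB₁))
  obtain ⟨δ, hδ⟩ : ∃ δ : ℝ, δ = min (min δ₁ δ₂) (min δ₃ 1) / 4 := ⟨_, rfl⟩
  have hm1 : min (min δ₁ δ₂) (min δ₃ 1) ≤ δ₁ := (min_le_left _ _).trans (min_le_left _ _)
  have hm2 : min (min δ₁ δ₂) (min δ₃ 1) ≤ δ₂ := (min_le_left _ _).trans (min_le_right _ _)
  have hm3 : min (min δ₁ δ₂) (min δ₃ 1) ≤ δ₃ := (min_le_right _ _).trans (min_le_left _ _)
  have hm4 : min (min δ₁ δ₂) (min δ₃ 1) ≤ 1 := (min_le_right _ _).trans (min_le_right _ _)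
  have hm0 : 0 < min (min δ₁ δ₂) (min δ₃ 1) := lt_min (lt_min hδ₁ hδ₂) (lt_min hδ₃ one_pos)
  have hδ0 : 0 < δ := by rw [hδ]; linarith
  have h41 : 4 * δ ≤ δ₁ := by rw [hδ]; linarith
  have h42 : 4 * δ ≤ δ₂ := by rw [hδ]; linarith
  have h43 : 4 * δ ≤ δ₃ := by rw [hδ]; linarith
  have h44 : 4 * δ ≤ 1 := by rw [hδ]; linarith
  -- the function
  classical
  obtain ⟨r, hr⟩ : ∃ r : E5 → E5, ∀ w, (∃ e ∈ C₂, dist w e < δ) → r w ∈ C₂ ∧ dist w (r w) < δ := by
    refine ⟨fun w => if h : ∃ e ∈ C₂, dist w e < δ then h.choose else 0, ?_⟩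
    intro w hw
    simp only [dif_pos hw]
    exact hw.choose_spec
  obtain ⟨g, hg⟩ : ∃ g : E5 → ℝ, g = fun w => if w ∈ K₂ ∧ ∃ e ∈ C₂, dist w e < δ then g₀ (r w) + c (r w) w else 0 :=
    ⟨_, rfl⟩
  obtain ⟨B₂, hB₂, hW⟩ := N1 K₂ (⋃ e ∈ C₂, ball e δ) q hK₂c (isOpen_biUnion fun _ _ => isOpen_ball) (by
    intro y hy hq
    rw [mem_iUnion₂]
    exact ⟨y, by rw [hC₂]; exact ⟨hq, hy⟩, mem_ball_self hδ0⟩)
  have hW' : ∀ y ∈ K₂, p y ∈ B₂ → ∃ e ∈ C₂, dist y e < δ := by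
    intro y hy hq
    have := hW y hy hq
    rw [mem_iUnion₂] at this
    obtain ⟨e, he, h⟩ := this
    exact ⟨e, he, h⟩
  obtain ⟨B, hB⟩ : ∃ B : Set Q, B = interior (B₁ ∩ B₂) := ⟨_, rfl⟩
  have hBq : B ∈ 𝓝 q := by
    rw [hB]
    exact interior_mem_nhds.2 (inter_mem hB₁ hB₂)
  have hBo : IsOpen B := by rw [hB]; exact isOpen_interior
  have hB1 : B ⊆ B₁ := by rw [hB]; exact interior_subset.trans inter_subset_left
  have hB2 : B ⊆ B₂ := by rw [hB]; exact interior_subset.trans inter_subset_right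
  refine ⟨B, hBq, g, ⟨K₂, hK₂c, ?_⟩, ?_⟩
  · intro y _ hy
    rw [hg]
    simp only
    rw [if_neg (fun h => hy h.1)]
  · intro y hy
    have hpB : p ⁻¹' B ∈ 𝓝 y := (hBo.preimage hF.pcont).mem_nhds hy
    by_cases hn : ‖y‖ < R + 2
    · refine ⟨ball y δ ∩ (ball 0 (R + 2) ∩ p ⁻¹' B), inter_mem (ball_mem_nhds y hδ0)
        (inter_mem (isOpen_ball.mem_nhds (by rw [mem_ball, dist_zero_right]; exact hn)) hpB), ?_⟩
      have hin : ∀ z ∈ ball (0 : E5) (R + 2), z ∈ K₂ := by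
        intro z hz
        rw [hK₂]
        exact ball_subset_closedBall hz
      have hy' := hr y (hW' y (hin y (by rw [mem_ball, dist_zero_right]; exact hn)) (hB2 hy))
      have key : ∀ z ∈ ball y δ ∩ (ball 0 (R + 2) ∩ p ⁻¹' B), g z = g₀ (r z) + c (r z) z ∧ p (r z) = q ∧
          z ∈ ball (r y) (4 * δ) ∧ r z ∈ ball (r y) (4 * δ) := by
        intro z hz
        have hzK := hin z hz.2.1
        have hzn := hW' z hzK (hB2 hz.2.2)
        have hz' := hr z hzn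
        have h1 : dist z y < δ := hz.1
        have h2 : dist z (r y) < 2 * δ := by
          have := dist_triangle z y (r y)
          linarith [hy'.2]
        refine ⟨?_, hCq _ hz'.1, ?_, ?_⟩
        · rw [hg]
          simp only
          rw [if_pos ⟨hzK, hzn⟩]
        · rw [mem_ball]; linarith
        · rw [mem_ball]
          have := dist_triangle (r z) z (r y)
          rw [dist_comm (r z) z] at this
          linarith [hz'.2]
      intro z hz w hw
      obtain ⟨gz, pz, bz, brz⟩ := key z hz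
      obtain ⟨gw, pw, bw, brw⟩ := key w hw
      have s1 : ball (r y) (4 * δ) ⊆ ball (r y) δ₁ := ball_subset_ball h41
      have s2 : ball (r y) (4 * δ) ⊆ ball (r y) δ₂ := ball_subset_ball h42
      have e1 := L2 (r y) hy'.1 (r z) (s2 brz) (r w) (s2 brw) pz pw
      have e2 := L1 (r y) hy'.1 (r z) (s1 brz) (r w) (s1 brw) w (s1 bw)
      have e3 := L1 (r y) hy'.1 (r z) (s1 brz) z (s1 bz) w (s1 bw)
      unfold dd at e2 e3
      rw [gz, gw]
      linarith
    · push Not at hn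
      obtain ⟨U₀, hU₀, hZ⟩ := hR2 y (by linarith) (hB1 hy)
      have hg0 : ∀ w ∈ ball y (1 / 4), g w = 0 := by
        intro w hw
        rw [hg]
        simp only
        by_cases h : w ∈ K₂ ∧ ∃ e ∈ C₂, dist w e < δ
        · rw [if_pos h]
          have hw' := hr w h.2
          rw [mem_ball] at hw
          have h1 : ‖y‖ ≤ ‖w‖ + 1 / 4 := by
            have := dist_triangle y w 0
            rw [dist_zero_right, dist_zero_right, dist_comm y w] at this
            linarith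
          have h2 : ‖w‖ ≤ ‖r w‖ + δ := by
            have := dist_triangle w (r w) 0
            rw [dist_zero_right, dist_zero_right] at this
            linarith [hw'.2]
          have h3 : R < ‖r w‖ := by linarith
          rw [hR1 (r w) (hCq _ hw'.1) h3, L3 (r w) (by rw [hC₃]; exact ⟨h3.le, hw'.1⟩) (r w)
            (mem_ball_self hδ₃) w (by rw [mem_ball]; linarith [hw'.2]), add_zero]
        · rw [if_neg h]
      refine ⟨U₀ ∩ ball y (1 / 4), inter_mem hU₀ (ball_mem_nhds y (by norm_num)), ?_⟩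
      intro z hz w hw
      rw [hg0 z hz.2, hg0 w hw.2, hZ z hz.1 w hw.1, sub_zero]

end Run7.h888.FL
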